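import Pool.Agent.R877.Flat.Aut
import Pool.Agent.R877.Flat.Dim
import Pool.Agent.R877.Flat.Transport

/-!
# MP_bb2d27_ag, Q1: the answer is yes

There is a flat manifold `M` of real dimension 24 (complex dimension 12) with holonomy group
`(ℤ/5)²`, with `b₁(M) = 0`, which admits a complex structure, and such that `Aut(M, J)` is infinite
for EVERY complex structure `J` on `M`.

Construction. The group `(ℤ/5)²` has six subgroups of order five, the kernels of characters
`χ₀, ..., χ₅`. The space `ℝ²⁴` is the sum of six copies of `{x ∈ ℝ⁵ : ∑ xᵢ = 0}`, and `g` acts on the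
`k`-th copy by the cyclic shift `T^χₖ(g)`. The group `Γ` consists of the maps `x ↦ g x + v` where the
coordinates of `v` in the `k`-th copy are congruent to `ψₖ(g) / 5` modulo `ℤ`, with `ψₖ` a character
which is non-zero on the kernel of `χₖ`.

The operator `T + T⁻¹` on the last copy (identity on the others) is a unit of infinite order of
`ℤ[(1 + √5) / 2]`; its fourth power normalizes `Γ`. It lies in the real group algebra of the
holonomy group, hence commutes with every complex structure `J`.

The definitions (Bieberbach group, flat manifold, complex structure, `Aut(M, J)`) are in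
`Pool/Agent/R877/Flat/Defs.lean`.
-/

set_option autoImplicit false

open Pool.Agent.R877.Flat

namespace Pool.Agent.Results.MP_bb2d27_ag.AlwaysInfinite

/-- There is a Bieberbach group `Γ` of isometries of `ℝ²⁴` such that the flat manifold
`M = ℝ²⁴ / Γ` has `b₁(M) = 0` and admits a complex structure, and such that `Aut(M, J)` is infinite
for every complex structure `J` on `M`. -/
theorem result : ∃ Γ : Subgroup (EuclideanSpace ℝ (Fin 24) ≃ᵃⁱ[ℝ] EuclideanSpace ℝ (Fin 24)),
    IsBieberbach Γ ∧ FirstBettiZero Γ ∧ (∃ J, IsComplexStructure Γ J) ∧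
      ∀ J, IsComplexStructure Γ J → (AutMJ Γ J).Infinite := by
  let e : W ≃ₗᵢ[ℝ] EuclideanSpace ℝ (Fin 24) :=
    ((stdOrthonormalBasis ℝ W).reindex (finCongr finrank_W)).repr
  refine ⟨Gam.map (conj e), Gam_isBieberbach.map e, Gam_betti.map e, ?_, fun J hJ => ?_⟩
  · obtain ⟨J, hJ⟩ := exists_complex
    exact ⟨_, hJ.map e⟩
  · exact aut_transport e Gam (aut_infinite _ (hJ.comap e))

end Pool.Agent.Results.MP_bb2d27_ag.AlwaysInfinite
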